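import Pool.Agent.N40.PN.BBa
import Pool.Agent.H985R3.TA.STA

/-!
Project PN, part BB (helper40).
-/

set_option autoImplicit false

namespace Pool.Agent.N40.PN.BB

open H984N
open Pool.Agent.N931.PN

theorem annUp : ∃ C : ℝ, 0 < C ∧ AnnUp C := by
  obtain ⟨C, hC, h⟩ := H985T.st_A
  exact ⟨C, hC, fun r R hr hR c1 c2 S => h r R hr hR c1 c2 S⟩

/-- two layers, long excursions from an edge in the bulk -/
theorem main (h4 : S_F4) (h2 : S_F2) : S_BB := main_of annUp h4 h2

end Pool.Agent.N40.PN.BB
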