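import Pool.Agent.N931.PN.Stm
import Pool.Agent.N144.EW.DetA

/-!
Project PN, part BB (helper40): two layers, long excursions from an edge in the bulk, from the
annulus bound.
-/

set_option autoImplicit false

namespace Pool.Agent.N40.PN.BB

open H974 H12S H389NS H984N H984P H342P Finset
open Pool.Agent.N116.EW
open Pool.Agent.N931.PN
open Pool.Agent.N144.EW (sd_le_iff le_sd_iff bd_le outer_far edges_of_bd)

theorem E2_add {ρ : Edg → ℝ} {S : Finset Edg} (f g : Finset Edg → Finset Edg → ℝ) :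
    E2 ρ S (fun F F' => f F F' + g F F') = E2 ρ S f + E2 ρ S g := by
  unfold E2
  simp only [mul_add, Finset.sum_add_distrib]

/-- the union of two events -/
theorem P2_or {ρ : Edg → ℝ} {S : Finset Edg} (hρ : ∀ e ∈ S, 0 ≤ ρ e ∧ ρ e ≤ 1)
    (A B : Finset Edg → Prop) :
    P2 ρ S (fun F => A F ∨ B F) (fun F => A F ∨ B F) ≤ 2 * P2 ρ S A A + 2 * P2 ρ S B B := by
  have hor : ∀ F, ind (A F ∨ B F) ≤ ind (A F) + ind (B F) := by
    intro F
    by_cases h1 : A F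
    · have h3 : ind (A F) = 1 := by unfold ind; rw [if_pos h1]
      have h4 := ind_nonneg (B F)
      have h5 := ind_le_one (A F ∨ B F)
      linarith
    · have h2 : ind (A F ∨ B F) = ind (B F) := ind_congr (by tauto)
      have h4 := ind_nonneg (A F)
      linarith
  have h1 : P2 ρ S (fun F => A F ∨ B F) (fun F => A F ∨ B F) ≤
      (P2 ρ S A A + P2 ρ S A B) + (P2 ρ S B A + P2 ρ S B B) := by
    unfold P2
    rw [← E2_add, ← E2_add, ← E2_add]
    refine E2_mono hρ fun F F' _ _ => ?_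
    have a1 := ind_nonneg (A F ∨ B F)
    have a2 := ind_nonneg (A F' ∨ B F')
    have a3 := hor F
    have a4 := hor F'
    calc ind (A F ∨ B F) * ind (A F' ∨ B F') ≤ (ind (A F) + ind (B F)) * (ind (A F') + ind (B F')) :=
          mul_le_mul a3 a4 a2 (a1.trans a3)
      _ = _ := by ring
  have h4 := P2_cs hρ A B
  have h5 : P2 ρ S B A = P2 ρ S A B := P2_comm _ _ _ _
  linarith

/-- The two arms outside of a block. -/
def NN (D : Dm) (z : Vtx) (d R : ℕ) (F : Finset Edg) : Prop :=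
  (∃ u w : Vtx, sd u z ≤ d ∧ (R : ℤ) ≤ sd w z ∧ Reach (↑F \ ↑(blk z d)) u w) ∧
  ∃ f g : Vtx, sd f z ≤ d + 1 ∧ (R : ℤ) ≤ sd g z ∧
    DReach {e | e ∈ D.edges ∧ e ∉ D.cfg F ∧ e ∉ blk z d} f g

theorem NN_local {D : Dm} {z : Vtx} {d R : ℕ} {F : Finset Edg} (hF : F ⊆ D.edges) :
    NN D z d R F ↔ NN D z d R (F ∩ (D.edges \ blk z d)) := by
  have h1 : (↑F \ ↑(blk z d) : Set Edg) = ↑(F ∩ (D.edges \ blk z d)) \ ↑(blk z d) := by
    ext e
    simp only [Set.mem_sdiff, Finset.mem_coe, Finset.mem_inter, Finset.mem_sdiff]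
    constructor
    · rintro ⟨h1, h2⟩
      exact ⟨⟨h1, hF h1, h2⟩, h2⟩
    · rintro ⟨⟨h1, _, _⟩, h2⟩
      exact ⟨h1, h2⟩
  have h2 : {e | e ∈ D.edges ∧ e ∉ D.cfg F ∧ e ∉ blk z d} =
      {e | e ∈ D.edges ∧ e ∉ D.cfg (F ∩ (D.edges \ blk z d)) ∧ e ∉ blk z d} := by
    ext e
    simp only [Set.mem_ofPred_eq, Dm.cfg, Set.mem_union, Finset.mem_coe, Finset.mem_inter,
      Finset.mem_sdiff]
    tauto
  unfold NN
  rw [h1, h2]

theorem wv_far {D : Dm} {u z : Vtx} (hD : D.Ok) (hu : u ∈ wv D) {m : ℤ} (h : m ≤ D.bd z) :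
    m ≤ sd u z := by
  rw [le_sd_iff]
  obtain ⟨h1, h2, h3, h4⟩ := bd_le (D := D) (c := z)
  obtain ⟨⟨x, y, b⟩, he, hu⟩ := hu
  obtain ⟨q1, q2, q3, q4, q5⟩ := hD
  rcases he with ⟨g1, g2, _⟩ | ⟨g1, g2, _⟩ | ⟨g1, g2, _⟩ <;> simp only at g1 g2 <;> subst g1 <;>
    subst g2 <;> rcases hu with rfl | rfl <;> simp only [src_mk, tgt_true, tgt_false] <;> omega

theorem nn_of {D : Dm} (hD : D.Ok) {z : Vtx} {d R : ℕ} {F : Finset Edg} (hR : (R : ℤ) ≤ D.bd z)
    (h : NX D z d R F) : NN D z d R F :=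
  ⟨h.1 fun _ hu => wv_far hD hu hR, h.2 fun _ hf => outer_far hf hR⟩

theorem nn_crs {D : Dm} {z : Vtx} {d R : ℕ} {F : Finset Edg} (h : NN D z d R F) :
    Crs z.1 z.2 (d + 1) R (↑F : Set Edg) ∧ DCrs z.1 z.2 (d + 1) R (↑(D.edges \ F) : Set Edg) := by
  obtain ⟨⟨u, w, hu, hw, huw⟩, f, g, hf, hg, hfg⟩ := h
  rw [sd_le_iff] at hu hf
  rw [le_sd_iff] at hw hg
  constructor
  · refine ⟨u, w, ?_, ?_, huw.mono Set.sdiff_subset⟩
    · unfold inR
      push_cast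
      omega
    · omega
  · refine ⟨f, g, ?_, ?_, hfg.mono ?_⟩
    · unfold inR
      push_cast
      omega
    · omega
    · rintro e ⟨h1, h2, _⟩
      rw [Finset.mem_coe, Finset.mem_sdiff]
      exact ⟨h1, fun h => h2 (Or.inl h)⟩

theorem main_of (hA : ∃ C : ℝ, 0 < C ∧ AnnUp C) (h4 : S_F4) (h2 : S_F2) : S_BB := by
  obtain ⟨C, hC, hann⟩ := hA
  refine ⟨16 * C, by positivity, ?_⟩
  intro D hD e he k w hk hkw hw ρ y hy0 hy1 hρ hρy
  set κ : ℕ := 2 ^ k with hκ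
  have hκ2 : 2 ≤ κ := by
    calc 2 = 2 ^ 1 := (pow_one 2).symm
      _ ≤ 2 ^ k := Nat.pow_le_pow_right (by norm_num) hk
  have hκw : 16 * κ ≤ w := by
    have : 2 ^ (k + 4) = 16 * κ := by rw [pow_add, hκ]; ring
    omega
  have hEV : ∀ F, EV D e k F → LG D {e} (2 * κ + 1) (insert e F) := by
    intro F h
    unfold EV at h
    rw [if_neg (by omega)] at h
    have : 2 ^ (k + 1) + 1 = 2 * κ + 1 := by rw [pow_succ, hκ]; ring
    rwa [this] at h
  obtain ⟨b1, b2, b3, b4⟩ := bd_le (D := D) (c := src e)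
  have hsub : ebx e (κ + 2) ⊆ D.edges := by
    have c1 : (src e).1 = e.1 := rfl
    have c2 : (src e).2 = e.2.1 := rfl
    rw [c1] at b1 b2
    rw [c2] at b3 b4
    unfold ebx Dm.edges
    exact RE_subset (by push_cast; omega) (by push_cast; omega) (by push_cast; omega)
      (by push_cast; omega)
  have hsub0 : ebx e κ ⊆ ebx e (κ + 2) := by
    unfold ebx
    exact RE_subset (by push_cast; omega) (by push_cast; omega) (by push_cast; omega)
      (by push_cast; omega)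
  set z : Vtx := src e with hz
  have hbe : ebx e (κ + 2) ⊆ blk z (κ + 4) := by
    have c1 : z.1 = e.1 := rfl
    have c2 : z.2 = e.2.1 := rfl
    unfold ebx blk
    rw [c1, c2]
    exact RE_subset (by push_cast; omega) (by push_cast; omega) (by push_cast; omega)
      (by push_cast; omega)
  have hdis : Disjoint (ebx e (κ + 2)) (D.edges \ blk z (κ + 4)) := by
    rw [Finset.disjoint_left]
    intro x h1 h2
    exact (Finset.mem_sdiff.1 h2).2 (hbe h1)
  -- the inclusion of the events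
  have hinc : ∀ F, F ⊆ D.edges → EV D e k F →
      (A4e κ e (↑F : Set Edg) ∨ A4d κ e F) ∧ NN D z (κ + 4) w F := by
    intro F hF hE
    constructor
    · have hwz : (w : ℤ) ≤ D.bd (src e) := hw
      have h5 := h4 D hD e he F hF (2 * κ) (2 * κ + 1) (by omega) (by push_cast; omega) le_rfl
        (hEV F hE)
      have h6 : 2 * κ / 2 = κ := by omega
      rwa [h6] at h5
    · exact nn_of hD hw (h2 D hD e he F hF k (κ + 4) w (by omega) hE)
  have locA : ∀ F, F ⊆ D.edges → ((A4e κ e (↑F : Set Edg) ∨ A4d κ e F) ↔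
      (A4e κ e (↑(F ∩ ebx e (κ + 2)) : Set Edg) ∨ A4d κ e (F ∩ ebx e (κ + 2)))) := by
    intro F _
    have h5 : A4e κ e (↑F : Set Edg) ↔ A4e κ e (↑(F ∩ ebx e (κ + 2)) : Set Edg) :=
      D0.A4_inter hsub0
    have h6 : A4d κ e F ↔ A4d κ e (F ∩ ebx e (κ + 2)) := by
      unfold A4d
      have : ebx e (κ + 2) \ (F ∩ ebx e (κ + 2)) = ebx e (κ + 2) \ F := by
        ext x
        simp only [Finset.mem_sdiff, Finset.mem_inter]
        tauto
      rw [this]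
    rw [← h5, ← h6]
  have hP1 : P2 ρ D.edges (EV D e k) (EV D e k) ≤
      P2 ρ D.edges (fun F => (A4e κ e (↑F : Set Edg) ∨ A4d κ e F) ∧ NN D z (κ + 4) w F)
        (fun F => (A4e κ e (↑F : Set Edg) ∨ A4d κ e F) ∧ NN D z (κ + 4) w F) :=
    D0.P2_mono hρ hinc hinc
  rw [P2_indep hsub Finset.sdiff_subset hdis locA locA (fun F hF => NN_local hF)
    (fun F hF => NN_local hF)] at hP1
  refine hP1.trans ?_
  have hA4 : P2 ρ D.edges (fun F => A4e κ e (↑F : Set Edg) ∨ A4d κ e F)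
      (fun F => A4e κ e (↑F : Set Edg) ∨ A4d κ e F) ≤ 4 * a42 y κ := by
    have h5 := P2_or hρ (fun F => A4e κ e (↑F : Set Edg)) (A4d κ e)
    have h6 := P2_A4e hρ (hsub0.trans hsub) (x := y) (fun e' he' => hρy e' (hsub0 he'))
    have h7 := P2_A4d hρ (k := κ) (e := e) hsub (x := y) hρy
    linarith
  have ok : Ok (fun _ : Edg => (1 / 2 : ℝ)) := by intro e; norm_num
  have hN : P2 ρ D.edges (NN D z (κ + 4) w) (NN D z (κ + 4) w) ≤
      4 * C * ((κ : ℝ) / w) ^ (1 / 4 : ℝ) := by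
    have h5 := P2_le_Pr hρ (NN D z (κ + 4) w) (NN D z (κ + 4) w)
    have h6 : Pr hp D.edges (NN D z (κ + 4) w) ≤
        Pr (fun _ => (1 / 2 : ℝ)) D.edges (fun F => Crs z.1 z.2 (κ + 5) w ↑F ∧
          DCrs z.1 z.2 (κ + 5) w (↑(D.edges \ F) : Set Edg)) :=
      Pr_mono ok (fun F _ hF => nn_crs hF)
    have h7 := hann (κ + 5) w (by omega) (by omega) z.1 z.2 D.edges
    have hw0 : (0 : ℝ) < w := by
      have : 0 < w := by omega
      exact_mod_cast this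
    have hκ0 : (0 : ℝ) < κ := by
      have : 0 < κ := by omega
      exact_mod_cast this
    have h8 : (((κ + 5 : ℕ) : ℝ) / w) ^ (1 / 4 : ℝ) ≤ 4 * ((κ : ℝ) / w) ^ (1 / 4 : ℝ) := by
      have h9 : ((κ + 5 : ℕ) : ℝ) / w ≤ 4 * ((κ : ℝ) / w) := by
        rw [mul_div_assoc', div_le_div_iff_of_pos_right hw0]
        have : κ + 5 ≤ 4 * κ := by omega
        exact_mod_cast this
      calc (((κ + 5 : ℕ) : ℝ) / w) ^ (1 / 4 : ℝ) ≤ (4 * ((κ : ℝ) / w)) ^ (1 / 4 : ℝ) :=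
            Real.rpow_le_rpow (by positivity) h9 (by norm_num)
        _ = 4 ^ (1 / 4 : ℝ) * ((κ : ℝ) / w) ^ (1 / 4 : ℝ) :=
            Real.mul_rpow (by norm_num) (by positivity)
        _ ≤ 4 ^ (1 : ℝ) * ((κ : ℝ) / w) ^ (1 / 4 : ℝ) := by
            apply mul_le_mul_of_nonneg_right _ (by positivity)
            exact Real.rpow_le_rpow_of_exponent_le (by norm_num) (by norm_num)
        _ = 4 * ((κ : ℝ) / w) ^ (1 / 4 : ℝ) := by rw [Real.rpow_one]
    calc P2 ρ D.edges (NN D z (κ + 4) w) (NN D z (κ + 4) w) ≤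
          C * (((κ + 5 : ℕ) : ℝ) / w) ^ (1 / 4 : ℝ) := (h5.trans h6).trans h7
      _ ≤ C * (4 * ((κ : ℝ) / w) ^ (1 / 4 : ℝ)) := mul_le_mul_of_nonneg_left h8 hC.le
      _ = _ := by ring
  have hn0 : 0 ≤ P2 ρ D.edges (NN D z (κ + 4) w) (NN D z (κ + 4) w) := D0.P2_nonneg hρ _ _
  have ha0 := a42_nonneg hy0 hy1 κ
  calc P2 ρ D.edges (fun F => A4e κ e (↑F : Set Edg) ∨ A4d κ e F)
        (fun F => A4e κ e (↑F : Set Edg) ∨ A4d κ e F) *
        P2 ρ D.edges (NN D z (κ + 4) w) (NN D z (κ + 4) w)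
      ≤ (4 * a42 y κ) * (4 * C * ((κ : ℝ) / w) ^ (1 / 4 : ℝ)) :=
        mul_le_mul hA4 hN hn0 (by positivity)
    _ = 16 * C * a42 y κ * ((2 ^ k : ℝ) / w) ^ (1 / 4 : ℝ) := by
        rw [hκ]
        push_cast
        ring

end Pool.Agent.N40.PN.BB
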