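import Pool.Agent.N931.PN.Stm
import Pool.Agent.N144.EW.DetA
import Pool.Agent.H984R4.NP.Clu
import Pool.Agent.H12R2.Sep.Win2
import Pool.Agent.H12R2.Sep.Win1
import Pool.Agent.H12R2.Sep.WinHalf
import Pool.Agent.H974R2.Split

/-!
Project PN, part SP (helper40): long excursions which start close to the corners of the rectangle
or close to the ends of the path.
-/

set_option autoImplicit false

namespace Pool.Agent.N40.PN.SP

open H974 H12S H389NS H984N H984P H342P Finset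
open Pool.Agent.N116.EW
open Pool.Agent.N931.PN
open Pool.Agent.N144.EW (sd_le_iff le_sd_iff sd_lt_iff blk_iff lastBoxD end_near face_near)

theorem firstOutD {H : Set Edg} {z x w : Vtx} {R : ℤ} (hw : R ≤ sd w z) (h : DReach H x w) :
    ∃ w', R ≤ sd w' z ∧ DReach (H ∩ {e | sd (dsrc e) z < R ∨ sd (dtgt e) z < R}) x w' := by
  induction h using Relation.ReflTransGen.head_induction_on with
  | refl => exact ⟨w, hw, DReach.refl _ _⟩
  | @head x x' hxx' _ ih =>
    by_cases hb : R ≤ sd x z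
    · exact ⟨x, hb, DReach.refl _ _⟩
    · obtain ⟨w', hw'1, hw'2⟩ := ih
      refine ⟨w', hw'1, Relation.ReflTransGen.head ?_ hw'2⟩
      obtain ⟨g, hg, hcase⟩ := hxx'
      refine ⟨g, ⟨hg, ?_⟩, hcase⟩
      rw [not_le] at hb
      rcases hcase with ⟨h1, h2⟩ | ⟨h1, h2⟩
      · left; rw [h1]; exact hb
      · right; rw [h2]; exact hb

/-- The wired arc is in the cluster. -/
theorem wir_clu {D : Dm} (hD : D.Ok) (F : Finset Edg) {e : Edg} (he : e ∈ D.wir) :
    src e ∈ D.clu F := by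
  obtain ⟨h1, h2, h3, h4, h5⟩ := hD
  have e1 := clu_bottom (D := D) F (-D.l).toNat (by omega)
  have f1 : -(((-D.l).toNat : ℕ) : ℤ) = D.l := by omega
  rw [f1] at e1
  obtain ⟨x, y, b⟩ := e
  show Reach (D.cfg F) (0, 0) (x, y)
  rcases he with ⟨_, g2, g3, g4⟩ | ⟨_, g2, g3, g4⟩ | ⟨_, g2, g3, g4⟩ <;> simp only at g2 g3 g4
  · have e2 := clu_left (D := D) F D.h.toNat (by omega)
    have e3 := clu_top (D := D) F (x - D.l).toNat (by omega)
    have f2 : ((D.h.toNat : ℕ) : ℤ) = D.h := by omega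
    have f3 : D.l + (((x - D.l).toNat : ℕ) : ℤ) = x := by omega
    rw [f2] at e2
    rw [f3] at e3
    rw [g2]
    exact (e1.trans e2).trans e3
  · have e2 := clu_left (D := D) F y.toNat (by omega)
    have f2 : ((y.toNat : ℕ) : ℤ) = y := by omega
    rw [f2] at e2
    rw [g2]
    exact e1.trans e2
  · have e2 := clu_bottom (D := D) F (-x).toNat (by omega)
    have f2 : -(((-x).toNat : ℕ) : ℤ) = x := by omega
    rw [f2] at e2
    rw [g2]
    exact e2

theorem sp_pt {D : Dm} {m : ℕ} {e : Edg} (h : e ∈ Sp D m) :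
    ∃ i : Fin 6, sd (src e) (pts D i) < m := by
  have h1 : qd D (src e) < m := (Finset.mem_filter.1 h).2
  unfold qd at h1
  rcases min_lt_iff.1 h1 with h | h
  · rcases min_lt_iff.1 h with h | h
    · rcases min_lt_iff.1 h with h | h
      · exact ⟨0, h⟩
      · exact ⟨1, h⟩
    · rcases min_lt_iff.1 h with h | h
      · exact ⟨2, h⟩
      · exact ⟨3, h⟩
  · rcases min_lt_iff.1 h with h | h
    · exact ⟨4, h⟩
    · exact ⟨5, h⟩

theorem tgt_near (e : Edg) : sd (tgt e) (src e) ≤ 1 := end_near (Or.inr rfl)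

theorem badV_crs {D : Dm} (hD : D.Ok) {m ρ : ℕ} (hρ : m ≤ ρ) {G : Finset Edg}
    (h : BadV D ρ (G \ Sp D m) G) :
    ∃ i : Fin 6, Crs (pts D i).1 (pts D i).2 (m + 1) (ρ - m) (↑G : Set Edg) := by
  obtain ⟨e, heG, heF, x, v, y, hxv, hy, hx, hv, hyc, w, hw, hvw⟩ := h
  have hes : e ∈ Sp D m := by
    by_contra hc
    exact heF (Or.inl (by rw [Finset.mem_coe, Finset.mem_sdiff]; exact ⟨heG, hc⟩))
  obtain ⟨i, hi⟩ := sp_pt hes
  have hv1 : sd v (src e) ≤ 1 := by
    rcases hxv with ⟨_, h⟩ | ⟨_, h⟩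
    · exact end_near (Or.inr h)
    · exact end_near (Or.inl h)
  refine ⟨i, v, w, ?_, ?_, hvw.mono ?_⟩
  · rw [sd_le_iff] at hv1
    rw [sd_lt_iff] at hi
    unfold inR
    push_cast
    omega
  · rw [sd_le_iff] at hv1
    rw [sd_lt_iff] at hi
    rw [le_sd_iff] at hw
    have hc : ((ρ - m : ℕ) : ℤ) = ρ - m := by omega
    rw [hc]
    omega
  · rintro g ⟨h1 | h1, h2, _⟩
    · exact h1
    · exact absurd (wir_clu hD _ h1) h2

theorem badW_crs {D : Dm} {m ρ : ℕ} (hρ : m ≤ ρ) (hρ1 : 1 ≤ ρ)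
    (hsep : ∀ i j : Fin 6, i ≠ j → 8 * (ρ : ℤ) ≤ sd (pts D i) (pts D j)) {G : Finset Edg}
    (h : BadW D ρ (G \ Sp D m) G) :
    ∃ i : Fin 6, DCrs (pts D i).1 (pts D i).2 (m + 1) (ρ - m) (↑(D.edges \ G) : Set Edg) := by
  obtain ⟨e, heG, heF, x, y, z, hxe, hyz, hx, hyc, hz, w, hw, hzw⟩ := h
  have hes : e ∈ Sp D m := by
    by_contra hc
    exact heF (Or.inl (by rw [Finset.mem_coe, Finset.mem_sdiff]; exact ⟨heG, hc⟩))
  obtain ⟨i, hi⟩ := sp_pt hes
  have hze : z = dsrc e ∨ z = dtgt e := (hyz.imp And.right And.right).symm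
  have hz1 : sd z (src e) ≤ 1 := (face_near hze).1
  set R : ℕ := ρ - m with hR
  have hc : (R : ℤ) = ρ - m := by omega
  have hz2 : sd z (pts D i) ≤ m + 1 := by
    rw [sd_le_iff] at hz1 ⊢
    rw [sd_lt_iff] at hi
    omega
  have hw2 : (R : ℤ) ≤ sd w (pts D i) := by
    rw [sd_le_iff] at hz1
    rw [sd_lt_iff] at hi
    rw [le_sd_iff] at hw ⊢
    rw [hc]
    omega
  obtain ⟨w', hw'1, hw'2⟩ := firstOutD hw2 hzw
  obtain ⟨u, hu1, hu2⟩ := lastBoxD (d := m) hz2 hw'2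
  refine ⟨i, u, w', ?_, ?_, hu2.mono ?_⟩
  · rw [sd_le_iff] at hu1
    unfold inR
    push_cast
    omega
  · rw [le_sd_iff] at hw'1
    omega
  · rintro g ⟨⟨⟨h1, h2, _, _⟩, h5⟩, h6⟩
    rw [Finset.mem_coe, Finset.mem_sdiff]
    refine ⟨h1, fun hgG => ?_⟩
    have hgs : g ∈ Sp D m := by
      by_contra hcc
      exact h2 (Or.inl (by rw [Finset.mem_coe, Finset.mem_sdiff]; exact ⟨hgG, hcc⟩))
    obtain ⟨j, hj⟩ := sp_pt hgs
    by_cases hij : i = j
    · subst hij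
      apply h6
      rw [Finset.mem_coe, blk_iff]
      have h7 := tgt_near g
      rw [sd_le_iff] at h7 ⊢
      rw [sd_le_iff]
      rw [sd_lt_iff] at hj
      omega
    · have h8 := hsep i j hij
      have h9 : sd (dsrc g) (src g) ≤ 1 := (face_near (Or.inl rfl)).1
      have h10 : sd (dtgt g) (src g) ≤ 1 := (face_near (Or.inr rfl)).1
      rw [le_sd_iff] at h8
      rw [sd_lt_iff] at hj
      rw [sd_le_iff] at h9 h10
      rcases h5 with h5 | h5
      · rw [sd_lt_iff] at h5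
        omega
      · rw [sd_lt_iff] at h5
        omega

theorem main : S_SP := by
  obtain ⟨κ, hκ, hW⟩ := H12S.win_half
  obtain ⟨C', c, hC', hc, harm⟩ := H12S.win_arm_of
    (fun h _ h1 h2 => fun c1 c2 S => H12S.win_blk h h1 h2 c1 c2 S) κ hκ
  refine ⟨4 ^ c * (1 + 12 * C'), c, by positivity, hc, ?_⟩
  intro D hD m ρ hm hmρ hsep
  have ok : Ok (fun _ : Edg => (1 / 2 : ℝ)) := by intro e; norm_num
  have hm0 : (0 : ℝ) < m := by exact_mod_cast hm
  have hρ0 : (0 : ℝ) < ρ := by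
    have : 0 < ρ := by omega
    exact_mod_cast this
  have hr0 : 0 ≤ ((m : ℝ) / ρ) ^ c := by positivity
  have h4 : (1 : ℝ) ≤ 4 ^ c := Real.one_le_rpow (by norm_num) hc.le
  by_cases h4m : ρ < 4 * m
  · have h1 : (1 : ℝ) ≤ 4 ^ c * ((m : ℝ) / ρ) ^ c := by
      rw [← Real.mul_rpow (by norm_num) (by positivity)]
      refine Real.one_le_rpow ?_ hc.le
      rw [mul_div_assoc', le_div_iff₀ hρ0, one_mul]
      have : (ρ : ℝ) < 4 * m := by exact_mod_cast h4m
      exact this.le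
    have h2 : 0 ≤ 12 * C' * (4 ^ c * ((m : ℝ) / ρ) ^ c) := by positivity
    have h3 := Pr_le_one ok D.edges (LG D (Sp D m) ρ)
    calc Pr (fun _ => (1 / 2 : ℝ)) D.edges (LG D (Sp D m) ρ) ≤ 1 := h3
      _ ≤ 4 ^ c * ((m : ℝ) / ρ) ^ c + 12 * C' * (4 ^ c * ((m : ℝ) / ρ) ^ c) := by linarith
      _ = _ := by ring
  · have hρm : m + 1 ≤ ρ - m := by omega
    have hq : ∀ i : Fin 6,
        Pr (fun _ => (1 / 2 : ℝ)) D.edges
          (fun F => Crs (pts D i).1 (pts D i).2 (m + 1) (ρ - m) (↑F : Set Edg) ∨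
            DCrs (pts D i).1 (pts D i).2 (m + 1) (ρ - m) (↑(D.edges \ F) : Set Edg)) ≤
          2 * (C' * (4 ^ c * ((m : ℝ) / ρ) ^ c)) := by
      intro i
      obtain ⟨h1, h2⟩ := harm (1 / 2) (ρ - m) (hW _) (m + 1) (ρ - m) (by omega) hρm le_rfl
        (pts D i).1 (pts D i).2 D.edges
      have h3 : (((m + 1 : ℕ) : ℝ) / ((ρ - m : ℕ) : ℝ)) ^ c ≤ 4 ^ c * ((m : ℝ) / ρ) ^ c := by
        rw [← Real.mul_rpow (by norm_num) (by positivity)]
        refine Real.rpow_le_rpow (by positivity) ?_ hc.le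
        have hd : (0 : ℝ) < ((ρ - m : ℕ) : ℝ) := by
          have : 0 < ρ - m := by omega
          exact_mod_cast this
        rw [mul_div_assoc', div_le_div_iff₀ hd hρ0]
        have e1 : ((ρ - m : ℕ) : ℝ) = ρ - m := Nat.cast_sub hmρ
        have e2 : (4 : ℝ) * m ≤ ρ := by
          have : 4 * m ≤ ρ := by omega
          exact_mod_cast this
        have e3 : (1 : ℝ) ≤ m := by exact_mod_cast hm
        rw [e1]
        push_cast
        nlinarith
      have h4 := mul_le_mul_of_nonneg_left h3 hC'.le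
      have h5 := Pr_or_le ok D.edges
        (fun F => Crs (pts D i).1 (pts D i).2 (m + 1) (ρ - m) (↑F : Set Edg))
        (fun F => DCrs (pts D i).1 (pts D i).2 (m + 1) (ρ - m) (↑(D.edges \ F) : Set Edg))
      unfold PQ at h1 h2
      linarith
    have h5 : Pr (fun _ => (1 / 2 : ℝ)) D.edges (LG D (Sp D m) ρ) ≤
        Pr (fun _ => (1 / 2 : ℝ)) D.edges (fun F => ∃ i ∈ (Finset.univ : Finset (Fin 6)),
          (Crs (pts D i).1 (pts D i).2 (m + 1) (ρ - m) (↑F : Set Edg) ∨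
            DCrs (pts D i).1 (pts D i).2 (m + 1) (ρ - m) (↑(D.edges \ F) : Set Edg))) := by
      refine Pr_mono ok fun F _ hF => ?_
      rcases hF with hF | hF
      · obtain ⟨i, hi⟩ := badV_crs hD hmρ hF
        exact ⟨i, Finset.mem_univ _, Or.inl hi⟩
      · obtain ⟨i, hi⟩ := badW_crs hmρ (by omega) hsep hF
        exact ⟨i, Finset.mem_univ _, Or.inr hi⟩
    have h6 := Pr_exists_le ok D.edges (Finset.univ : Finset (Fin 6))
      (fun i F => Crs (pts D i).1 (pts D i).2 (m + 1) (ρ - m) (↑F : Set Edg) ∨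
            DCrs (pts D i).1 (pts D i).2 (m + 1) (ρ - m) (↑(D.edges \ F) : Set Edg))
    have h7 := Finset.sum_le_sum (s := (Finset.univ : Finset (Fin 6))) fun i _ => hq i
    rw [Finset.sum_const, Finset.card_univ, Fintype.card_fin, nsmul_eq_mul] at h7
    have e6 : ((6 : ℕ) : ℝ) = 6 := by norm_num
    rw [e6] at h7
    have h8 : 0 ≤ 4 ^ c * ((m : ℝ) / ρ) ^ c := by positivity
    calc Pr (fun _ => (1 / 2 : ℝ)) D.edges (LG D (Sp D m) ρ) ≤
          6 * (2 * (C' * (4 ^ c * ((m : ℝ) / ρ) ^ c))) := (h5.trans h6).trans h7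
      _ ≤ 4 ^ c * ((m : ℝ) / ρ) ^ c + 12 * C' * (4 ^ c * ((m : ℝ) / ρ) ^ c) := by linarith
      _ = _ := by ring

end Pool.Agent.N40.PN.SP
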